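import Pool.Agent.U707.PT.Stm
import Pool.Agent.V11211.Trace

/-!
# Project PT, package FAC: traces on the invariants of mw pure modules
-/

set_option autoImplicit false

open Polynomial Module

namespace Pool.Agent.U263.PT

open Pool.Agent.U707.PT
open Pool.Agent.V11211 (trace_eq_add trace_eq_of_equiv)

section lin

variable {E : Type} [Field E]

theorem trace_surj {A B : Type} [AddCommGroup A] [Module E A] [FiniteDimensional E A]
    [AddCommGroup B] [Module E B] [FiniteDimensional E B]
    (φ : Module.End E A) (ψ : Module.End E B) (u : A →ₗ[E] B) (hu : Function.Surjective u)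
    (h : ∀ x, u (φ x) = ψ (u x)) (φK : Module.End E (LinearMap.ker u))
    (hK : ∀ x, ((φK x : LinearMap.ker u) : A) = φ x) :
    LinearMap.trace E A φ = LinearMap.trace E (LinearMap.ker u) φK + LinearMap.trace E B ψ := by
  have he : LinearMap.ker u ≤ (LinearMap.ker u).comap φ := by
    intro x hx
    rw [Submodule.mem_comap, LinearMap.mem_ker, h, LinearMap.mem_ker.1 hx, map_zero]
  rw [trace_eq_add (LinearMap.ker u) φ he]
  congr 1
  · congr 1
    ext x
    exact (hK x).symm
  · refine trace_eq_of_equiv _ _ (u.quotKerEquivOfSurjective hu) fun v => ?_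
    obtain ⟨x, rfl⟩ := Submodule.Quotient.mk_surjective _ v
    exact h x

theorem trace_proj {M : Type} [AddCommGroup M] [Module E M] [FiniteDimensional E M]
    (G Q : Module.End E M) (hQ : ∀ x, Q (Q x) = Q x) (hc : ∀ x, G (Q x) = Q (G x))
    (GR : Module.End E (LinearMap.range Q)) (hGR : ∀ x, ((GR x : LinearMap.range Q) : M) = G x) :
    LinearMap.trace E M (G * Q) = LinearMap.trace E (LinearMap.range Q) GR := by
  have h := trace_surj (E := E) (G * Q) GR Q.rangeRestrict Q.surjective_rangeRestrict (by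
    intro x
    apply Subtype.ext
    rw [hGR]
    change Q (G (Q x)) = G (Q x)
    rw [hc, hQ]) 0 (by
    intro x
    have hx : Q x = 0 := by
      have := x.2
      rw [LinearMap.mem_ker] at this
      exact congrArg Subtype.val this
    change (0 : M) = G (Q x)
    rw [hx, map_zero])
  rw [h, map_zero, zero_add]

theorem aeval_comm {M : Type} [AddCommGroup M] [Module E M] (F G s : Module.End E M)
    (h : ∀ x, G (s x) = s (F x)) (f : E[X]) (x : M) : aeval G f (s x) = s (aeval F f x) := by
  have hp : ∀ (n : ℕ) (x : M), (G ^ n) (s x) = s ((F ^ n) x) := by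
    intro n
    induction n with
    | zero => intro x; rfl
    | succ n ih =>
      intro x
      rw [pow_succ, pow_succ, Module.End.mul_apply, Module.End.mul_apply, h, ih]
  induction f using Polynomial.induction_on' with
  | add f g hf hg =>
    rw [map_add, map_add, LinearMap.add_apply, LinearMap.add_apply, hf, hg, map_add]
  | monomial n a =>
    rw [aeval_monomial, aeval_monomial, Module.End.mul_apply, Module.End.mul_apply, hp,
      Module.algebraMap_end_apply, Module.algebraMap_end_apply, map_smul]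

end lin

section wt

variable {E : Type} [Field E] [CharZero E] {M : Type} [AddCommGroup M] [Module E M]
  {q : ℕ} {F : Module.End E M}

theorem le_of_wt (hs : (⨆ c, wt q F c) = ⊤) (W : Submodule E M) (h : ∀ d, wt q F d ≤ W) (x : M) :
    x ∈ W := by
  have h1 : (⨆ c, wt q F c) ≤ W := iSup_le h
  rw [hs] at h1
  exact h1 trivial

theorem ext_wt (hs : (⨆ c, wt q F c) = ⊤) (f g : Module.End E M)
    (h : ∀ d, ∀ x ∈ wt q F d, f x = g x) (x : M) : f x = g x :=
  le_of_wt hs (LinearMap.eqLocus f g) (fun d x hx => h d x hx) x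

theorem wt_comm (s : Module.End E M) (h : ∀ x, F (s x) = s (F x)) {d : ℤ} {x : M}
    (hx : x ∈ wt q F d) : s x ∈ wt q F d := by
  obtain ⟨f, hf, hx⟩ := hx
  exact ⟨f, hf, by rw [aeval_comm F F s h, hx, map_zero]⟩

theorem wt_shift (hq : 1 < q) (ν : Module.End E M) (h : ∀ x, ν (F x) = (q : E) • F (ν x)) {d : ℤ}
    {x : M} (hx : x ∈ wt q F d) : ν x ∈ wt q F (d - 2) := by
  obtain ⟨f, ⟨hf0, hf⟩, hx⟩ := hx
  have hq0 : (q : ℚ) ≠ 0 := by exact_mod_cast (show q ≠ 0 by omega)
  refine ⟨f.comp (C (q : ℚ) * X), ⟨?_, ?_⟩, ?_⟩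
  · intro h0
    apply hf0
    ext n
    have h1 := congrArg (fun g => g.coeff n) h0
    simp only [comp_C_mul_X_coeff, coeff_zero, mul_eq_zero] at h1
    rcases h1 with h1 | h1
    · rw [h1, coeff_zero]
    · exact absurd h1 (pow_ne_zero _ hq0)
  · intro z hz
    rw [aeval_comp] at hz
    have h1 := hf _ hz
    have e1 : aeval z (C (q : ℚ) * X) = (q : ℂ) * z := by
      simp
    rw [e1, norm_mul, mul_pow, Complex.norm_natCast] at h1
    have hqr : (q : ℝ) ≠ 0 := by exact_mod_cast (show q ≠ 0 by omega)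
    rw [zpow_sub₀ hqr, eq_div_iff (zpow_ne_zero _ hqr), mul_comm, ← h1]
    norm_cast
  · rw [Polynomial.map_comp, aeval_comp]
    have e1 : aeval F ((C (q : ℚ) * X).map (algebraMap ℚ E)) = (q : E) • F := by
      simp [Algebra.smul_def]
    rw [e1, aeval_comm F ((q : E) • F) ν (fun x => by rw [h]; rfl), hx, map_zero]

end wt

section main

variable {E : Type} [Field E] [CharZero E] {M : Type} [AddCommGroup M] [Module E M]
  [FiniteDimensional E M]

theorem main_one (q : ℕ) (hq : 1 < q) (F ν e : Module.End E M) (m : ℤ)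
    (hνF : ∀ x, ν (F x) = (q : E) • F (ν x)) (he : ∀ x, e (e x) = e x)
    (heF : ∀ x, e (F x) = F (e x)) (heν : ∀ x, e (ν x) = ν (e x)) (hp : MWPure q F ν m)
    (π : ℤ → Module.End E M) (hπ : ∀ c d, ∀ x ∈ wt q F d, π c x = if d = c then x else 0)
    (P P2 : Module.End E M) (hP : ∀ d, ∀ x ∈ wt q F d, P x = if d ≤ m then x else 0)
    (hP2 : ∀ d, ∀ x ∈ wt q F d, P2 x = if d ≤ m - 2 then x else 0)
    (K : Submodule E M) (hK : ∀ x, x ∈ K ↔ ν x = 0 ∧ e x = x) (T : Module.End E K)
    (hT : ∀ x, ((T x : K) : M) = F x) (k : ℕ) :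
    LinearMap.trace E K (T ^ k) = LinearMap.trace E M (F ^ k * (P * e)) -
      (q : E) ^ k * LinearMap.trace E M (F ^ k * (P2 * e)) := by
  obtain ⟨hs, hb⟩ := hp
  have wF : ∀ {d x}, x ∈ wt q F d → F x ∈ wt q F d := fun hx => wt_comm F (fun _ => rfl) hx
  have we : ∀ {d x}, x ∈ wt q F d → e x ∈ wt q F d := fun hx => wt_comm e (fun x => (heF x).symm) hx
  have wν : ∀ {d x}, x ∈ wt q F d → ν x ∈ wt q F (d - 2) := fun hx => wt_shift hq ν hνF hx
  -- commutation
  have h1 : ∀ x, P2 (ν x) = ν (P x) := ext_wt hs (P2 * ν) (ν * P) (by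
    intro d x hx
    rw [Module.End.mul_apply, Module.End.mul_apply, hP2 _ _ (wν hx), hP _ _ hx]
    by_cases hd : d ≤ m
    · rw [if_pos (by omega), if_pos hd]
    · rw [if_neg (by omega), if_neg hd, map_zero])
  have h2 : ∀ x, P (F x) = F (P x) := ext_wt hs (P * F) (F * P) (by
    intro d x hx
    rw [Module.End.mul_apply, Module.End.mul_apply, hP _ _ (wF hx), hP _ _ hx]
    split_ifs
    · rfl
    · rw [map_zero])
  have h2' : ∀ x, P2 (F x) = F (P2 x) := ext_wt hs (P2 * F) (F * P2) (by
    intro d x hx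
    rw [Module.End.mul_apply, Module.End.mul_apply, hP2 _ _ (wF hx), hP2 _ _ hx]
    split_ifs
    · rfl
    · rw [map_zero])
  have h3 : ∀ x, P (e x) = e (P x) := ext_wt hs (P * e) (e * P) (by
    intro d x hx
    rw [Module.End.mul_apply, Module.End.mul_apply, hP _ _ (we hx), hP _ _ hx]
    split_ifs
    · rfl
    · rw [map_zero])
  have h3' : ∀ x, P2 (e x) = e (P2 x) := ext_wt hs (P2 * e) (e * P2) (by
    intro d x hx
    rw [Module.End.mul_apply, Module.End.mul_apply, hP2 _ _ (we hx), hP2 _ _ hx]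
    split_ifs
    · rfl
    · rw [map_zero])
  have h4 : ∀ x, P (P x) = P x := ext_wt hs (P * P) P (by
    intro d x hx
    rw [Module.End.mul_apply, hP _ _ hx]
    split_ifs with hd
    · rw [hP _ _ hx, if_pos hd]
    · rw [map_zero])
  have h4' : ∀ x, P2 (P2 x) = P2 x := ext_wt hs (P2 * P2) P2 (by
    intro d x hx
    rw [Module.End.mul_apply, hP2 _ _ hx]
    split_ifs with hd
    · rw [hP2 _ _ hx, if_pos hd]
    · rw [map_zero])
  have h5 : ∀ y, P2 y ∈ LinearMap.range ν := by
    intro y
    refine le_of_wt hs ((LinearMap.range ν).comap P2) (fun d x hx => ?_) y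
    rw [Submodule.mem_comap, hP2 _ _ hx]
    split_ifs with hd
    · obtain ⟨j, hj⟩ : ∃ j : ℕ, (j : ℤ) + 1 = m - d := ⟨(m - d - 1).toNat, by omega⟩
      obtain ⟨x', -, hx'⟩ := (hb (j + 1)).surjOn (show x ∈ (wt q F (m - (j + 1 : ℕ)) : Set M) by
        have : m - ((j + 1 : ℕ) : ℤ) = d := by push_cast; omega
        rw [this]
        exact hx)
      rw [pow_succ', Module.End.mul_apply] at hx'
      exact ⟨_, hx'⟩
    · exact Submodule.zero_mem _
  have h6 : ∀ x, ν x = 0 → P x = x := by
    intro x hx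
    obtain ⟨y, hy⟩ : ∃ y, y = x - P x := ⟨_, rfl⟩
    have hνy : ν y = 0 := by rw [hy, map_sub, ← h1, hx, map_zero, sub_zero]
    have hπy : ∀ c, π c y = 0 := by
      intro c
      have hmem : π c y ∈ wt q F c := by
        refine le_of_wt hs ((wt q F c).comap (π c)) (fun d x hx => ?_) y
        rw [Submodule.mem_comap, hπ _ _ _ hx]
        split_ifs with hd
        · rw [← hd]; exact hx
        · exact Submodule.zero_mem _
      have hν : ν (π c y) = 0 := by
        have h7 : ∀ x, π (c - 2) (ν x) = ν (π c x) := ext_wt hs (π (c - 2) * ν) (ν * π c) (by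
          intro d x hx
          rw [Module.End.mul_apply, Module.End.mul_apply, hπ _ _ _ (wν hx), hπ _ _ _ hx]
          by_cases hd : d = c
          · rw [if_pos (by omega), if_pos hd]
          · rw [if_neg (by omega), if_neg hd, map_zero])
        rw [← h7, hνy, map_zero]
      by_cases hc : m < c
      · obtain ⟨j, hj⟩ : ∃ j : ℕ, (j : ℤ) + 1 = c - m := ⟨(c - m - 1).toNat, by omega⟩
        have hcm : m + ((j + 1 : ℕ) : ℤ) = c := by push_cast; omega
        refine (hb (j + 1)).injOn (by rw [hcm]; exact hmem) (Submodule.zero_mem _) ?_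
        rw [pow_succ, Module.End.mul_apply, hν, map_zero, map_zero]
      · have h8 : ∀ x, π c (P x) = π c x := ext_wt hs (π c * P) (π c) (by
          intro d x hx
          rw [Module.End.mul_apply, hP _ _ hx]
          split_ifs with hd
          · rfl
          · rw [map_zero, hπ _ _ _ hx, if_neg (by omega)])
        rw [hy, map_sub, h8, sub_self]
    have hy0 : y = 0 := by
      have h9 := le_of_wt hs ⊤ (fun _ => le_top) y
      have h10 : y ∈ (⨆ c, wt q F c) := by rw [hs]; trivial
      obtain ⟨g, hg⟩ := (Submodule.mem_iSup_iff_exists_finsupp _ _).1 h10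
      obtain ⟨hg1, hg2⟩ := hg
      have h11 : ∀ c, g c = 0 := by
        intro c
        have h12 := hπy c
        rw [← hg2, Finsupp.sum, map_sum] at h12
        rw [Finset.sum_congr rfl (fun d _ => hπ c d _ (hg1 d))] at h12
        rw [Finset.sum_ite_eq'] at h12
        split_ifs at h12 with h13
        · exact h12
        · exact Finsupp.notMem_support_iff.1 h13
      rw [← hg2, Finsupp.sum]
      exact Finset.sum_eq_zero fun c _ => h11 c
    rw [hy, sub_eq_zero] at hy0
    exact hy0.symm
  -- the spaces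
  have hQ : ∀ x, (P * e) ((P * e) x) = (P * e) x := by
    intro x
    simp only [Module.End.mul_apply]
    rw [← h3, he, h4]
  have hQ2 : ∀ x, (P2 * e) ((P2 * e) x) = (P2 * e) x := by
    intro x
    simp only [Module.End.mul_apply]
    rw [← h3', he, h4']
  have cQ : Commute (F ^ k) (P * e) := by
    refine Commute.pow_left ?_ k
    ext x
    simp only [Module.End.mul_apply]
    rw [heF, h2]
  have cQ2 : Commute (F ^ k) (P2 * e) := by
    refine Commute.pow_left ?_ k
    ext x
    simp only [Module.End.mul_apply]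
    rw [heF, h2']
  have cQ' : ∀ x, (F ^ k) ((P * e) x) = (P * e) ((F ^ k) x) := fun x => LinearMap.congr_fun cQ.eq x
  have cQ2' : ∀ x, (F ^ k) ((P2 * e) x) = (P2 * e) ((F ^ k) x) := fun x =>
    LinearMap.congr_fun cQ2.eq x
  have memA : ∀ x, x ∈ LinearMap.range (P * e) ↔ P x = x ∧ e x = x := by
    intro x
    constructor
    · rintro ⟨y, rfl⟩
      simp only [Module.End.mul_apply]
      exact ⟨h4 _, by rw [← h3, he]⟩
    · rintro ⟨hx1, hx2⟩
      exact ⟨x, by rw [Module.End.mul_apply, hx2, hx1]⟩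
  have memA2 : ∀ x, x ∈ LinearMap.range (P2 * e) ↔ P2 x = x ∧ e x = x := by
    intro x
    constructor
    · rintro ⟨y, rfl⟩
      simp only [Module.End.mul_apply]
      exact ⟨h4' _, by rw [← h3', he]⟩
    · rintro ⟨hx1, hx2⟩
      exact ⟨x, by rw [Module.End.mul_apply, hx2, hx1]⟩
  have stA : ∀ x ∈ LinearMap.range (P * e), (F ^ k) x ∈ LinearMap.range (P * e) := by
    rintro x ⟨y, rfl⟩
    exact ⟨(F ^ k) y, (cQ' y).symm⟩
  have stA2 : ∀ x ∈ LinearMap.range (P2 * e), (F ^ k) x ∈ LinearMap.range (P2 * e) := by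
    rintro x ⟨y, rfl⟩
    exact ⟨(F ^ k) y, (cQ2' y).symm⟩
  have hνA : ∀ x ∈ LinearMap.range (P * e), ν x ∈ LinearMap.range (P2 * e) := by
    intro x hx
    obtain ⟨hx1, hx2⟩ := (memA x).1 hx
    refine (memA2 _).2 ⟨?_, ?_⟩
    · rw [h1, hx1]
    · rw [heν, hx2]
  have hνk : ∀ x, ν ((F ^ k) x) = (q : E) ^ k • (F ^ k) (ν x) := by
    have : ∀ (n : ℕ) x, ν ((F ^ n) x) = (q : E) ^ n • (F ^ n) (ν x) := by
      intro n
      induction n with
      | zero => intro x; simp
      | succ n ih =>
        intro x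
        rw [pow_succ, Module.End.mul_apply, ih, hνF, map_smul, smul_smul, ← pow_succ,
          Module.End.mul_apply]
    exact this k
  have t1 := trace_proj (F ^ k) (P * e) hQ cQ' ((F ^ k).restrict stA) (fun x => rfl)
  have t2 := trace_proj (F ^ k) (P2 * e) hQ2 cQ2' ((F ^ k).restrict stA2) (fun x => rfl)
  have hker : ∀ x ∈ LinearMap.ker (ν.restrict hνA), ((F ^ k).restrict stA) x ∈
      LinearMap.ker (ν.restrict hνA) := by
    intro x hx
    rw [LinearMap.mem_ker] at hx ⊢
    apply Subtype.ext
    have hx' : ν (x : M) = 0 := congrArg Subtype.val hx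
    change ν ((F ^ k) (x : M)) = 0
    rw [hνk, hx', map_zero, smul_zero]
  have t3 := trace_surj ((F ^ k).restrict stA) ((q : E) ^ k • (F ^ k).restrict stA2)
    (ν.restrict hνA) (by
      rintro ⟨y, hy⟩
      obtain ⟨hy1, hy2⟩ := (memA2 y).1 hy
      obtain ⟨x, hx⟩ := h5 y
      rw [hy1] at hx
      refine ⟨⟨(P * e) x, x, rfl⟩, ?_⟩
      apply Subtype.ext
      change ν (P (e x)) = y
      rw [← h1, ← heν, hx, hy2, hy1]) (by
      intro x
      apply Subtype.ext
      change ν ((F ^ k) (x : M)) = (q : E) ^ k • (F ^ k) (ν (x : M))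
      exact hνk _) (((F ^ k).restrict stA).restrict hker) (fun x => rfl)
  have hj : ∀ x : LinearMap.ker (ν.restrict hνA), (((LinearMap.range (P * e)).subtype ∘ₗ
      (LinearMap.ker (ν.restrict hνA)).subtype) x) ∈ K := by
    intro x
    have hx := x.2
    rw [LinearMap.mem_ker] at hx
    exact (hK _).2 ⟨congrArg Subtype.val hx, ((memA _).1 x.1.2).2⟩
  have t4 := trace_eq_of_equiv (((F ^ k).restrict stA).restrict hker) (T ^ k)
    (LinearEquiv.ofBijective (LinearMap.codRestrict K ((LinearMap.range (P * e)).subtype ∘ₗ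
      (LinearMap.ker (ν.restrict hνA)).subtype) hj) (by
      constructor
      · intro x y hxy
        apply Subtype.ext
        apply Subtype.ext
        have h0 := congrArg (fun z : K => (z : M)) hxy
        exact h0
      · rintro ⟨y, hy⟩
        obtain ⟨hy1, hy2⟩ := (hK y).1 hy
        refine ⟨⟨⟨y, (memA y).2 ⟨h6 y hy1, hy2⟩⟩, ?_⟩, rfl⟩
        rw [LinearMap.mem_ker]
        exact Subtype.ext hy1)) (by
      intro v
      apply Subtype.ext
      have hTk : ∀ (n : ℕ) (x : K), (((T ^ n) x : K) : M) = (F ^ n) (x : M) := by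
        intro n
        induction n with
        | zero => intro x; rfl
        | succ n ih =>
          intro x
          rw [pow_succ', Module.End.mul_apply, hT, ih, pow_succ', Module.End.mul_apply]
      rw [hTk]
      rfl)
  rw [t1, t2, ← t4, t3, map_smul, smul_eq_mul]
  ring

end main

/-- the action as a homomorphism of algebras -/
noncomputable def actHom {E : Type} [Field E] {R : Type} [Ring R] [Algebra E R] (M : Type)
    [AddCommGroup M] [Module E M] [Module R M] [IsScalarTower E R M] : R →ₐ[E] Module.End E M where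
  toFun := act M
  map_one' := by ext x; exact one_smul R x
  map_mul' r s := by ext x; exact mul_smul r s x
  map_zero' := by ext x; exact zero_smul R x
  map_add' r s := by ext x; exact add_smul r s x
  commutes' a := by ext x; exact algebraMap_smul R a x

theorem t_FAC (hPR : S_PROJ) : S_FAC := by
  intro E R _ _ _ _ ι _ M _ _ _ _ _ b q F ν e m hq hb hνF he hp T hT k
  obtain ⟨p, hp1⟩ := hPR E ι M (fun i => act (M i) F) q hq (fun i => (hp i).1)
  -- a bound for the weights
  have hfin : ∀ i, {d : ℤ | wt q (act (E := E) (M i) F) d ≠ ⊥}.Finite := by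
    intro i
    have hind : iSupIndep (fun d => wt q (act (E := E) (M i) F) d) := by
      intro d
      rw [Submodule.disjoint_def]
      intro x hx hx2
      have h1 := hp1 i d d x hx
      rw [if_pos rfl] at h1
      have h2 : (⨆ j, ⨆ (_ : j ≠ d), wt q (act (E := E) (M i) F) j) ≤
          LinearMap.ker (aeval (act (E := E) (M i) F) ((p d).map (algebraMap ℚ E))) := by
        refine iSup_le fun j => iSup_le fun hj => fun y hy => ?_
        rw [LinearMap.mem_ker, hp1 i d j y hy, if_neg hj]
      have h3 := h2 hx2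
      rw [LinearMap.mem_ker, h1] at h3
      exact h3
    exact WellFoundedGT.finite_ne_bot_of_iSupIndep hind
  obtain ⟨B, hB⟩ : ∃ B : ℤ, ∀ i d, wt q (act (E := E) (M i) F) d ≠ ⊥ → B ≤ d := by
    have h1 : (⋃ i, {d : ℤ | wt q (act (E := E) (M i) F) d ≠ ⊥}).Finite := Set.finite_iUnion hfin
    obtain ⟨B, hB⟩ := h1.bddBelow
    exact ⟨B, fun i d hd => hB (Set.mem_iUnion.2 ⟨i, hd⟩)⟩
  have key : ∀ (n : ℤ) (i : ι) (d : ℤ) (x : M i), x ∈ wt q (act (E := E) (M i) F) d →
      act (E := E) (M i) (∑ c ∈ Finset.Icc B n, aeval F ((p c).map (algebraMap ℚ E))) x =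
        if d ≤ n then x else 0 := by
    intro n i d x hx
    have e1 : act (E := E) (M i) (∑ c ∈ Finset.Icc B n, aeval F ((p c).map (algebraMap ℚ E))) =
        ∑ c ∈ Finset.Icc B n, aeval (act (E := E) (M i) F) ((p c).map (algebraMap ℚ E)) := by
      change actHom (E := E) (M i) (∑ c ∈ Finset.Icc B n, aeval F ((p c).map (algebraMap ℚ E))) = _
      rw [map_sum]
      refine Finset.sum_congr rfl fun c _ => ?_
      exact (Polynomial.aeval_algHom_apply (actHom (E := E) (M i)) F _).symm
    rw [e1, LinearMap.sum_apply, Finset.sum_congr rfl (fun c _ => hp1 i c d x hx),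
      Finset.sum_ite_eq]
    by_cases hd : wt q (act (E := E) (M i) F) d = ⊥
    · have hx0 : x = 0 := by
        rw [hd] at hx
        exact (Submodule.mem_bot E).1 hx
      rw [hx0, ite_self, ite_self]
    · have h1 := hB i d hd
      by_cases h2 : d ≤ n
      · rw [if_pos (Finset.mem_Icc.2 ⟨h1, h2⟩), if_pos h2]
      · rw [if_neg (fun h => h2 (Finset.mem_Icc.1 h).2), if_neg h2]
  have hone : ∀ i, LinearMap.trace E _ (T i ^ k) =
      LinearMap.trace E (M i) (act (M i) (F ^ k *
        ((∑ c ∈ Finset.Icc B m, aeval F ((p c).map (algebraMap ℚ E))) * e))) -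
      (q : E) ^ k * LinearMap.trace E (M i) (act (M i) (F ^ k *
        ((∑ c ∈ Finset.Icc B (m - 2), aeval F ((p c).map (algebraMap ℚ E))) * e))) := by
    intro i
    have e1 : ∀ r : R, act (E := E) (M i) (F ^ k * (r * e)) =
        (act (E := E) (M i) F) ^ k * (act (M i) r * act (M i) e) := by
      intro r
      change actHom (E := E) (M i) (F ^ k * (r * e)) = _
      rw [map_mul, map_pow, map_mul]
      rfl
    rw [e1, e1]
    refine main_one q hq (act (M i) F) (act (M i) ν) (act (M i) e) m (hνF i) (fun x => (he i x).1)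
      (fun x => (he i x).2.1) (fun x => (he i x).2.2) (hp i)
      (fun c => aeval (act (E := E) (M i) F) ((p c).map (algebraMap ℚ E))) (fun c d x hx => hp1 i c d x hx)
      _ _ (key m i) (key (m - 2) i) _ (fun x => ?_) (T i) (fun x => hT i x) k
    rw [Submodule.mem_inf, LinearMap.mem_ker, LinearMap.mem_ker]
    refine and_congr Iff.rfl ?_
    change (e - 1) • x = 0 ↔ e • x = x
    rw [sub_smul, one_smul, sub_eq_zero]
  simp only [hone]
  have h1 := hb (F ^ k * ((∑ c ∈ Finset.Icc B m, aeval F ((p c).map (algebraMap ℚ E))) * e))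
  have h2 := hb (F ^ k * ((∑ c ∈ Finset.Icc B (m - 2), aeval F ((p c).map (algebraMap ℚ E))) * e))
  calc _ = (∑ i, (b i : E) * LinearMap.trace E (M i) (act (M i) (F ^ k *
        ((∑ c ∈ Finset.Icc B m, aeval F ((p c).map (algebraMap ℚ E))) * e)))) -
      (q : E) ^ k * ∑ i, (b i : E) * LinearMap.trace E (M i) (act (M i) (F ^ k *
        ((∑ c ∈ Finset.Icc B (m - 2), aeval F ((p c).map (algebraMap ℚ E))) * e))) := by
        rw [Finset.mul_sum, ← Finset.sum_sub_distrib]
        refine Finset.sum_congr rfl fun i _ => ?_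
        ring
    _ = 0 := by rw [h1, h2, mul_zero, sub_zero]

end Pool.Agent.U263.PT
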